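import Pool.Agent.Helper98.TW.Stmts
import Pool.Agent.Helper98.TW.Basic
import Pool.Agent.Helper57.DZ.FPR

/-!
# TW rows TR0, TR1: factors of type `q` on the lowest levels
-/

set_option autoImplicit false

namespace Pool.Agent.Helper97.TWR

open MeasureTheory Filter Topology Finset
open scoped ComplexConjugate
open Pool.Agent.Helper98.TW
open Pool.Agent.Helper16.AZ (T mm fc)
open UnitAddTorus (mFourier)

theorem st_TR0 : ST_TR0 := by
  intro N lev f f' G hG _ hG0 ε hε
  refine ⟨0, fun q _ C W hQ => ?_⟩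
  have h1 : (mm N)[G|C 0] = fun _ => (0 : ℂ) := by
    rw [hQ.zero]
    have h2 : (mm N)[G|(⊥ : MeasurableSpace (T N))] = fun _ => ∫ x, G x ∂(mm N) :=
      condExp_bot (μ := mm N) G
    rw [hG0] at h2
    exact h2
  rw [h1]
  simp only [norm_zero, ne_eq, OfNat.ofNat_ne_zero, not_false_eq_true, zero_pow,
    integral_zero]
  exact hε.le

section aux

variable {N : ℕ}

lemma ex_mul (a b : Fin N → ℤ) (x : T N) : ex a x * ex b x = ex (a + b) x :=
  (UnitAddTorus.mFourier_add (n := b) (m := a) (x := x)).symm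

lemma ex_conj (a : Fin N → ℤ) (x : T N) : conj (ex a x) = ex (-a) x :=
  (UnitAddTorus.mFourier_neg (n := a) (x := x)).symm

lemma ex_norm (a : Fin N → ℤ) (x : T N) : ‖ex a x‖ = 1 := by
  have h1 : ex a x * conj (ex a x) = 1 := by
    rw [ex_conj, ex_mul, add_neg_cancel]
    show mFourier (0 : Fin N → ℤ) x = 1
    rw [UnitAddTorus.mFourier_zero]
    rfl
  have h2 : ‖ex a x‖ * ‖ex a x‖ = 1 := by
    have h3 := congrArg norm h1
    rwa [norm_mul, RCLike.norm_conj, norm_one] at h3
  exact (mul_self_eq_one_iff.mp h2).resolve_right fun h => by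
    have := norm_nonneg (ex a x)
    rw [h] at this
    linarith

lemma ex_cont (a : Fin N → ℤ) : Continuous (ex a : T N → ℂ) := (mFourier a).continuous

lemma fc_eq (F : T N → ℂ) (k : Fin N → ℤ) : fc F k = ∫ x, ex (-k) x * F x ∂(mm N) := rfl

lemma ex_zero (x : T N) : ex (0 : Fin N → ℤ) x = 1 := by
  show mFourier (0 : Fin N → ℤ) x = 1
  rw [UnitAddTorus.mFourier_zero]
  rfl

lemma ex_int (a : Fin N → ℤ) (ha : a ≠ 0) : ∫ x, ex a x ∂(mm N) = 0 := by
  have h := Pool.Agent.Helper40.DZ.fpr_one (memLp_const (μ := mm N) (p := 2) (1 : ℂ))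
  have h0 : fc (fun _ : T N => (1 : ℂ)) 0 = 1 := by
    rw [fc_eq, neg_zero]
    simp only [ex_zero, mul_one, integral_const, probReal_univ, one_smul]
  have h1 : (∫ _θ : T N, ‖(1 : ℂ)‖ ^ 2 ∂(mm N)) = 1 := by simp
  rw [h1] at h
  have hne : (0 : Fin N → ℤ) ≠ -a := fun h => ha (neg_eq_zero.mp h.symm)
  have h2 := sum_le_hasSum ({0, -a} : Finset (Fin N → ℤ)) (fun i _ => by positivity) h
  rw [Finset.sum_pair hne, h0, norm_one, one_pow] at h2
  have h3 : ‖fc (fun _ : T N => (1 : ℂ)) (-a)‖ ^ 2 = 0 := by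
    have := sq_nonneg ‖fc (fun _ : T N => (1 : ℂ)) (-a)‖
    linarith
  have h4 : fc (fun _ : T N => (1 : ℂ)) (-a) = 0 := norm_eq_zero.mp (pow_eq_zero_iff two_ne_zero |>.mp h3)
  rw [fc_eq, neg_neg] at h4
  simpa using h4

lemma ex_meas (a : Fin N → ℤ) : Measurable (ex a : T N → ℂ) := (ex_cont a).measurable

lemma ce_left {m : SA (T N)} {f g : T N → ℂ} (hf : AM (mm N) m f)
    (hfg : Integrable (fun x => f x * g x) (mm N)) (hg : Integrable g (mm N)) :
    (mm N)[fun x => f x * g x|m] =ᵐ[mm N] fun x => f x * ((mm N)[g|m]) x := by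
  have hf' : AEStronglyMeasurable[m] f (mm N) := hf
  exact condExp_bilin_of_aestronglyMeasurable_left (ContinuousLinearMap.mul ℝ ℂ) hf' hfg hg

lemma ce_right {m : SA (T N)} {f g : T N → ℂ} (hg : AM (mm N) m g)
    (hfg : Integrable (fun x => f x * g x) (mm N)) (hf : Integrable f (mm N)) :
    (mm N)[fun x => f x * g x|m] =ᵐ[mm N] fun x => ((mm N)[f|m]) x * g x := by
  have hg' : AEStronglyMeasurable[m] g (mm N) := hg
  exact condExp_bilin_of_aestronglyMeasurable_right (ContinuousLinearMap.mul ℝ ℂ) hg' hfg hf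

lemma ce_int {m : SA (T N)} (hm : Lm m) (f : T N → ℂ) :
    ∫ x, ((mm N)[f|m]) x ∂(mm N) = ∫ x, f x ∂(mm N) := by
  have hle : @LE.le (MeasurableSpace (T N)) _ m inferInstance := hm
  have : IsFiniteMeasure ((mm N).trim hle) := isFiniteMeasure_trim hle
  have : SigmaFinite ((mm N).trim hle) := IsFiniteMeasure.toSigmaFinite _
  exact integral_condExp hle

end aux

theorem st_TR1 (hALS : ST_ALS) (hDNS : ST_DNS) : ST_TR1 := by
  classical
  intro N lev f f' hTI G hG _ hG0 ε hε
  have hPG := Pool.Agent.Helper40.DZ.fpr_one hG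
  -- the finite set of frequencies
  obtain ⟨S, hS⟩ : ∃ S : Finset (Fin N → ℤ), (∫ x, ‖G x‖ ^ 2 ∂(mm N)) - ε ≤ ∑ k ∈ S, ‖fc G k‖ ^ 2 := by
    have h1 := (hPG.eventually (lt_mem_nhds (sub_lt_self (∫ x, ‖G x‖ ^ 2 ∂(mm N)) hε))).exists
    obtain ⟨S, hS⟩ := h1
    exact ⟨S, hS.le⟩
  refine ⟨(∑ k ∈ S, ∑ i, (k i).natAbs) + 1, fun q hq C W hQ => ?_⟩
  have hq' : ∀ k ∈ S, (∀ i, (q : ℤ) ∣ k i) → k = 0 := by
    intro k hk hd
    funext i
    have h1 : (k i).natAbs ≤ ∑ k ∈ S, ∑ i, (k i).natAbs :=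
      (Finset.single_le_sum (f := fun i => (k i).natAbs) (fun _ _ => Nat.zero_le _)
        (Finset.mem_univ i)).trans
        (Finset.single_le_sum (f := fun k : Fin N → ℤ => ∑ i, (k i).natAbs)
          (fun _ _ => Nat.zero_le _) hk)
    exact Int.eq_zero_of_abs_lt_dvd (hd i) (by
      rw [Int.abs_eq_natAbs]
      exact_mod_cast (by omega : (k i).natAbs < q))
  -- notation
  have hC1 : C 1 = jo bo (sg (W 0)) := by rw [hQ.succ 0, hQ.zero]
  have hLm : Lm (C 1) := (hQ.ia 1).1
  let P : T N → ℂ := (mm N)[G|C 1]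
  have hP2 : MemLp P 2 (mm N) := hG.condExp (by norm_num)
  have hPi : Integrable P (mm N) := integrable_condExp
  have hGi : Integrable G (mm N) := hG.integrable (by norm_num)
  have hPam : AM (mm N) (C 1) P := stronglyMeasurable_condExp.aestronglyMeasurable
  have hbd : ∀ (k : Fin N → ℤ) (F : T N → ℂ), Integrable F (mm N) →
      Integrable (fun x => ex k x * F x) (mm N) := by
    intro k F hF
    refine hF.bdd_mul (c := 1) (ex_meas k).aestronglyMeasurable (Eventually.of_forall fun x => ?_)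
    rw [ex_norm]
  -- elements of `W 0`
  have hW : ∀ φ ∈ W 0, ∃ a : Fin N → ℤ, ∃ c : ℂ, (∀ i, (q : ℤ) ∣ a i) ∧ c ≠ 0 ∧
      φ =ᵐ[mm N] fun x => c * ex a x := by
    intro φ hφ
    obtain ⟨hU, ⟨a, ha, hAM⟩, -⟩ := hQ.hom 0 hφ
    have hdiv := hQ.div φ hφ a ha hAM
    rw [(hALS N lev).1] at hAM
    obtain ⟨c, hc⟩ := am_bo.mp hAM
    have h1 : φ =ᵐ[mm N] fun x => c * ex a x := by
      filter_upwards [hc] with x hx
      rw [← hx]
      have h2 : conj (ex a x) * ex a x = 1 := by
        rw [ex_conj, ex_mul, neg_add_cancel, ex_zero]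
      calc φ x = φ x * (conj (ex a x) * ex a x) := by rw [h2, mul_one]
        _ = _ := by ring
    refine ⟨a, c, hdiv, ?_, h1⟩
    rintro rfl
    obtain ⟨x, hx1, hx2⟩ := (h1.and hU.2).exists
    have hx3 : φ x = 0 := by rw [hx1]; exact zero_mul _
    rw [hx3, norm_zero] at hx2
    exact zero_ne_one hx2
  -- the coefficients of `P`
  have hcoef : ∀ k : Fin N → ℤ, fc P k = 0 ∨ ((∀ i, (q : ℤ) ∣ k i) ∧ fc P k = fc G k) := by
    intro k
    by_cases hk : ∃ φ ∈ W 0, ∃ c : ℂ, c ≠ 0 ∧ φ =ᵐ[mm N] fun x => c * ex (-k) x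
    · right
      obtain ⟨φ, hφ, c, hc0, hc⟩ := hk
      have hAM : AM (mm N) (C 1) (ex (-k)) := by
        have h1 : AM (mm N) (C 1) φ := by rw [hC1]; exact am_jo_right (am_sg hφ)
        have h2 := am_mul (am_const (μ := mm N) (𝒜 := C 1) c⁻¹) h1
        refine am_congr h2 ?_
        filter_upwards [hc] with x hx
        rw [hx, ← mul_assoc, inv_mul_cancel₀ hc0, one_mul]
      refine ⟨?_, ?_⟩
      · obtain ⟨a, c', ha, hc'0, hc'⟩ := hW φ hφ
        have hak : a = -k := by
          by_contra hne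
          have h1 : ∀ᵐ x ∂(mm N), ex (a + k) x = c'⁻¹ * c := by
            filter_upwards [hc, hc'] with x hx hx'
            have h2 : c' * ex a x = c * ex (-k) x := by rw [← hx', ← hx]
            have h3 : ex (a + k) x = c'⁻¹ * (c' * ex a x) * ex k x := by
              rw [← mul_assoc, inv_mul_cancel₀ hc'0, one_mul, ex_mul]
            rw [h3, h2]
            have h4 : ex (-k) x * ex k x = 1 := by rw [ex_mul, neg_add_cancel, ex_zero]
            calc c'⁻¹ * (c * ex (-k) x) * ex k x = c'⁻¹ * c * (ex (-k) x * ex k x) := by ring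
              _ = c'⁻¹ * c := by rw [h4, mul_one]
          have h5 := ex_int (a + k) fun h => hne (eq_neg_of_add_eq_zero_left h)
          rw [integral_congr_ae h1, integral_const, probReal_univ, one_smul] at h5
          exact (mul_ne_zero (inv_ne_zero hc'0) hc0) h5
        intro i
        have h6 := ha i
        rw [hak] at h6
        exact (dvd_neg).mp h6
      · rw [fc_eq, fc_eq]
        have h1 : (mm N)[fun x => ex (-k) x * G x|C 1] =ᵐ[mm N] fun x => ex (-k) x * P x :=
          ce_left hAM (hbd _ _ hGi) hGi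
        rw [← integral_congr_ae h1]
        exact ce_int hLm _
    · left
      push Not at hk
      let F : T N → ℂ := (mm N)[ex (-k)|C 1]
      have hex : Integrable (ex (-k) : T N → ℂ) (mm N) := by
        have := hbd (-k) (fun _ => 1) (integrable_const _)
        simpa using this
      have hF0 : F =ᵐ[mm N] 0 := by
        refine hDNS (T N) (mm N) bo (W 0) F lm_bo (hQ.grp 0) integrable_condExp ?_ ?_
        · rw [← hC1]
          exact stronglyMeasurable_condExp.aestronglyMeasurable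
        · intro φ hφ
          have hAM : AM (mm N) (C 1) (fun x => conj (φ x)) := by
            rw [hC1]; exact am_conj (am_jo_right (am_sg hφ))
          have hφU := (hQ.hom 0 hφ).1
          have hint : Integrable (fun x => ex (-k) x * conj (φ x)) (mm N) := by
            refine hbd _ _ ((integrable_const (1 : ℝ)).mono'
              (RCLike.continuous_conj.measurable.comp hφU.1).aestronglyMeasurable ?_)
            filter_upwards [hφU.2] with x hx
            rw [RCLike.norm_conj, hx]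
          have h1 : (mm N)[fun x => ex (-k) x * conj (φ x)|C 1] =ᵐ[mm N]
              fun x => F x * conj (φ x) :=
            ce_right hAM hint hex
          have h2 : ∫ x, F x * conj (φ x) ∂(mm N) = 0 := by
            rw [← integral_congr_ae h1, ce_int hLm]
            obtain ⟨a, c, -, hc0, hc⟩ := hW φ hφ
            have h3 : ∀ᵐ x ∂(mm N), ex (-k) x * conj (φ x) = conj c * ex (-k - a) x := by
              filter_upwards [hc] with x hx
              rw [hx, map_mul, ex_conj, sub_eq_add_neg, ← ex_mul]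
              ring
            rw [integral_congr_ae h3, integral_const_mul, ex_int, mul_zero]
            intro h4
            have h5 : a = -k := (sub_eq_zero.mp h4).symm
            rw [h5] at hc
            exact hk φ hφ c hc0 hc
          have h3 : (mm N)[fun x => F x * conj (φ x)|(⊥ : MeasurableSpace (T N))] =
              fun _ => ∫ x, F x * conj (φ x) ∂(mm N) := condExp_bot (μ := mm N) _
          rw [h2] at h3
          show (mm N)[fun x => F x * conj (φ x)|(⊥ : MeasurableSpace (T N))] =ᵐ[mm N] 0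
          rw [h3]
          rfl
      rw [fc_eq]
      have h1 : (mm N)[fun x => ex (-k) x * P x|C 1] =ᵐ[mm N] fun x => F x * P x :=
        ce_right hPam (hbd _ _ hPi) hex
      rw [← ce_int hLm, integral_congr_ae h1]
      have h2 : ∀ᵐ x ∂(mm N), F x * P x = 0 := by
        filter_upwards [hF0] with x hx
        rw [hx]
        exact zero_mul _
      rw [integral_congr_ae h2, integral_zero]
  have hP0 : fc P 0 = 0 := by
    rw [fc_eq, neg_zero]
    simp only [ex_zero, one_mul]
    show ∫ x, ((mm N)[G|C 1]) x ∂(mm N) = 0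
    rw [ce_int hLm, hG0]
  have hPP := Pool.Agent.Helper40.DZ.fpr_one hP2
  have hfin : HasSum (fun k : Fin N → ℤ => if k ∈ S then ‖fc G k‖ ^ 2 else 0)
      (∑ k ∈ S, ‖fc G k‖ ^ 2) := by
    have h1 : HasSum (fun k : Fin N → ℤ => if k ∈ S then ‖fc G k‖ ^ 2 else 0)
        (∑ k ∈ S, if k ∈ S then ‖fc G k‖ ^ 2 else 0) :=
      hasSum_sum_of_ne_finset_zero (fun k hk => if_neg hk)
    rwa [Finset.sum_congr rfl fun k hk => if_pos hk] at h1
  have hle : (∫ x, ‖P x‖ ^ 2 ∂(mm N)) + ∑ k ∈ S, ‖fc G k‖ ^ 2 ≤ ∫ x, ‖G x‖ ^ 2 ∂(mm N) := by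
    refine hasSum_le (fun k => ?_) (hPP.add hfin) hPG
    by_cases hk : k ∈ S
    · rw [if_pos hk]
      have h1 : fc P k = 0 := by
        rcases hcoef k with h | ⟨h, h2⟩
        · exact h
        · rw [hq' k hk h]
          exact hP0
      rw [h1, norm_zero, zero_pow two_ne_zero, zero_add]
    · rw [if_neg hk, add_zero]
      rcases hcoef k with h | ⟨-, h⟩
      · rw [h, norm_zero, zero_pow two_ne_zero]
        positivity
      · rw [h]
  show ∫ x, ‖P x‖ ^ 2 ∂(mm N) ≤ ε
  linarith

end Pool.Agent.Helper97.TWR
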